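import Pool.Agent.Y718.LZ.Fa

/-!
# Smooth quartic double covers as blocks: local ideals
-/

set_option autoImplicit false
set_option linter.unusedVariables false
set_option linter.unusedSectionVars false

open MvPolynomial Pool.Agent.Y718 Pool.Agent.Y718.SF Pool.Agent.Y718.CL Pool.Agent.Y720.MZ
open Filter Topology Pool.Agent.Y718.FQ

namespace Pool.Agent.Y718.LZ

variable {K : Type} [Field K] [CharZero K] {n : ℕ} {L : Type*} [NontriviallyNormedField L]
  [CompleteSpace L] [ProperSpace L] [CharZero L]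

lemma pts_eq (F : MvPolynomial (Fin (n + 1)) K) :
    {x : Fin (n + 1) → K | (fun i => x (ixe n i)) ∈ FQ.X0 (dh F 0)} = Pts F := by
  ext x
  have e1 : eval (fun j => x (ixe n (Sum.inl j))) (dh F 0) = eval (Function.update x 0 1) F := by
    rw [dh_eval]
    congr 1
    congr 1
    apply ic_ext 0
    · rw [ic_same, Function.update_self]
    · intro j
      rw [ic_above, Function.update_of_ne (by simp)]
      rfl
  show (x (ixe n (Sum.inr ())) ^ 2 = _ ∧ _) ↔ _
  rw [e1]
  rfl

open Pool.Agent.TH729.CV in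
/-- the local ideals of the points `(w, z₁, …, z_n)` -/
theorem FA_pts (hBD : S_BD) {p : ℕ} [Fact p.Prime] (ρ : K →+* ℚ_[p]) (hn : 2 ≤ n)
    {F : MvPolynomial (Fin (n + 1)) K} (hF : F.IsHomogeneous 4)
    (hsm : ∀ y : Fin (n + 1) → AlgebraicClosure K, (∀ i, aeval y (pderiv i F) = 0) → y = 0)
    (σ : K →+* L) (hσ : DenseRange σ) : FA σ {y : Fin (n + 1) → K |
      y 0 ^ 2 = eval (Function.update y 0 1) F ∧ y 0 ≠ 0} := by
  have h1 := FA.cyl hσ (FA_X0 hBD ρ hn hF hsm σ) (ixe n).injective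
  rw [pts_eq] at h1
  exact h1

end Pool.Agent.Y718.LZ
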