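import Pool.Agent.Y718.LZ.Fa

/-!
# Local Zariski closures on double covers branched along smooth quartics: the cone
-/

set_option autoImplicit false
set_option linter.unusedVariables false
set_option linter.unusedSectionVars false

open MvPolynomial Pool.Agent.Y718 Pool.Agent.Y718.SF Pool.Agent.Y718.CL Pool.Agent.Y720.MZ
open WeierstrassCurve Filter Topology Pool.Agent.Y718.FQ

namespace Pool.Agent.Y718.LZ

section bad

variable {K : Type} [Field K] [CharZero K] {n : ℕ}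

lemma ne_zero_of_val {F : MvPolynomial (Fin (n + 1)) K} (hF : F.IsHomogeneous 4)
    {Y : Fin (n + 1) → K} (h : eval Y F ≠ 0) : Y ≠ 0 := by
  rintro rfl
  apply h
  have h0 := hom_smul hF 0 (0 : Fin (n + 1) → K)
  rw [zero_smul, zero_pow (by norm_num), zero_mul] at h0
  exact h0

/-- the exceptional lines -/
theorem bad_K {p : ℕ} [Fact p.Prime] (ρ : K →+* ℚ_[p]) (φ : ℚ_[p] →+* ℂ) (hn : 2 ≤ n)
    {F : MvPolynomial (Fin (n + 1)) K} (hF : F.IsHomogeneous 4)
    (hs : Smooth (MvPolynomial.map φ (MvPolynomial.map ρ F))) :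
    ∃ T : Set (Fin (n + 1) → K), T.Finite ∧ ∀ Y : Fin (n + 1) → K, eval Y F ≠ 0 →
      (∀ t ∈ T, ∀ c : K, Y ≠ c • t) → ¬ Bad (MvPolynomial.map ρ F) (fun i => ρ (Y i)) := by
  classical
  have h0 : S_EX0 := Pool.Agent.Y944.CL.ex0 Pool.Agent.Y151.CL.loc'
  have h1 : S_EX1 := Pool.Agent.Y944.CL.ex1 Pool.Agent.Y151.CL.loc'
  obtain ⟨E, hE, hb⟩ := bad_set h0 h1 φ hn (hF.map ρ) hs
  have hg : ∀ e : Fin (n + 1) → ℚ_[p], ∃ Z : Fin (n + 1) → K,
      (∃ (Y : Fin (n + 1) → K) (c : ℚ_[p]), Y ≠ 0 ∧ (fun i => ρ (Y i)) = c • e) →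
      Z ≠ 0 ∧ ∃ c : ℚ_[p], (fun i => ρ (Z i)) = c • e := by
    intro e
    by_cases h : ∃ (Y : Fin (n + 1) → K) (c : ℚ_[p]), Y ≠ 0 ∧ (fun i => ρ (Y i)) = c • e
    · obtain ⟨Y, c, h2, h3⟩ := h
      exact ⟨Y, fun _ => ⟨h2, c, h3⟩⟩
    · exact ⟨0, fun h' => absurd h' h⟩
  choose g hg using hg
  refine ⟨g '' E, hE.image g, fun Y hY hT hB => ?_⟩
  have hv : eval (fun i => ρ (Y i)) (MvPolynomial.map ρ F) = ρ (eval Y F) := by
    rw [eval_map]
    exact ((eval₂_comp_left ρ (RingHom.id K) Y F).trans rfl).symm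
  obtain ⟨e, he, c, hc⟩ := hb _ (by rw [hv]; exact (map_ne_zero ρ).2 hY) hB
  obtain ⟨hZ, c', hc'⟩ := hg e ⟨Y, c, ne_zero_of_val hF hY, hc⟩
  obtain ⟨i, hi⟩ := Function.ne_iff.1 hZ
  have hi : g e i ≠ 0 := hi
  have h2 : ∀ j, ρ (Y j) = c * e j := fun j => congrFun hc j
  have h3 : ∀ j, ρ (g e j) = c' * e j := fun j => congrFun hc' j
  refine hT (g e) ⟨e, he, rfl⟩ (Y i / g e i) ?_
  funext j
  apply ρ.injective
  rw [Pi.smul_apply, smul_eq_mul, map_mul, map_div₀, h2 j, h2 i, h3 j, h3 i]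
  have h4 : c' * e i ≠ 0 := by rw [← h3 i]; exact (map_ne_zero ρ).2 hi
  have h5 := mul_ne_zero_iff.1 h4
  have h6 := h5.1
  have h7 := h5.2
  field_simp

/-- the indices of the coordinates -/
def oe (m : ℕ) : Option (Fin m) → Fin m ⊕ Unit := fun o => o.elim (Sum.inr ()) Sum.inl

lemma eval_oe {m : ℕ} (x : Fin m ⊕ Unit → K) (f : MvPolynomial (Option (Fin m)) K) :
    eval x (rename (oe m) f) = eval (fun o => o.elim (x (Sum.inr ())) fun i => x (Sum.inl i)) f := by
  rw [eval_rename]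
  congr 1
  congr 1
  funext o
  rcases o with _ | i <;> rfl

/-- **Local Zariski density on the cone.** -/
theorem cone_lz {p : ℕ} [Fact p.Prime] (ρ : K →+* ℚ_[p]) (hn : 2 ≤ n)
    {F : MvPolynomial (Fin (n + 1)) K} (hF : F.IsHomogeneous 4)
    (hsm : ∀ y : Fin (n + 1) → AlgebraicClosure K, (∀ i, aeval y (pderiv i F) = 0) → y = 0) :
    ∃ T : Set (Fin (n + 1) → K), T.Finite ∧ ∀ (L : Type) [NontriviallyNormedField L]
      [ProperSpace L] (σ : K →+* L) (Y : Fin (n + 1) → K) (W : K), W ≠ 0 → W ^ 2 = eval Y F →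
      (∀ t ∈ T, ∀ c : K, Y ≠ c • t) → ∀ U ∈ 𝓝 (σ W, fun a => σ (Y a)),
      ∀ f : MvPolynomial (Option (Fin (n + 1))) K,
        (∀ (z : Fin (n + 1) → K) (w : K), w ^ 2 = eval z F → (σ w, fun a => σ (z a)) ∈ U →
          eval (fun o => o.elim w z) f = 0) →
        ∀ (z : Fin (n + 1) → K) (w : K), w ^ 2 = eval z F → eval (fun o => o.elim w z) f = 0 := by
  obtain ⟨φ⟩ := Pool.Agent.Y447.CL.emb p
  have hs : Smooth (MvPolynomial.map φ (MvPolynomial.map ρ F)) := by
    rw [MvPolynomial.map_map]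
    exact Pool.Agent.Y362.CL.smt K (n + 1) F hsm _
  obtain ⟨T, hT, hbad⟩ := bad_K ρ φ hn hF hs
  refine ⟨T, hT, fun L _ _ σ Y W hW hWY hYT U hU f hf z w hzw => ?_⟩
  have hv : eval (fun i => ρ (Y i)) (MvPolynomial.map ρ F) = ρ (eval Y F) := by
    rw [eval_map]
    exact ((eval₂_comp_left ρ (RingHom.id K) Y F).trans rfl).symm
  have hio : ∃ e : Fin (n + 1) → ℚ_[p], IOt (th (MvPolynomial.map ρ F) e (fun j => ρ (Y j))
      (ρ W)) := by
    refine loc_io Pool.Agent.Y165.CL.ufd Pool.Agent.Y447.CL.bai Pool.Agent.Y447.CL.lin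
      Pool.Agent.Y718.CL.Sep.sep φ (by omega) (hF.map ρ) hs ?_ ((map_ne_zero ρ).2 hW)
      (hbad Y (by rw [← hWY]; exact pow_ne_zero 2 hW) hYT)
    show _ = _
    rw [hv, ← hWY, map_pow]
  have hcont : Continuous fun e : Fin (n + 1) ⊕ Unit → L =>
      (e (Sum.inr ()), fun a : Fin (n + 1) => e (Sum.inl a)) := by fun_prop
  have h2 := lz ρ σ (f := F) hF.totalDegree_le
    (x0 := Sum.elim Y fun _ => W) ⟨hWY, hW⟩ hio
    (U := (fun e : Fin (n + 1) ⊕ Unit → L =>
      (e (Sum.inr ()), fun a : Fin (n + 1) => e (Sum.inl a))) ⁻¹' U)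
    (hcont.continuousAt.preimage_mem_nhds hU) (h := rename (oe (n + 1)) f) (by
      intro x hx hxU
      rw [eval_oe]
      exact hf _ _ hx hxU) (Sum.elim z fun _ => w) hzw
  rw [eval_oe] at h2
  exact h2

end bad

section L

variable {K : Type} [Field K] [CharZero K] {n : ℕ} {L : Type} [NontriviallyNormedField L]

/-- the ideal of the local Zariski closure of the set of rational points at a point -/
def LJ (σ : K →+* L) (F : MvPolynomial (Fin (n + 1)) K) (w : L) (x : Fin (n + 1) → L) :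
    Set (MvPolynomial (Option (Fin (n + 1))) K) :=
  {f | ∃ U ∈ 𝓝 (w, x), ∀ (W : K) (Y : Fin (n + 1) → K), Y ≠ 0 → W ^ 2 = eval Y F →
    (∃ c : L, c ≠ 0 ∧ (c ^ 2 * σ W, fun i => c * σ (Y i)) ∈ U) →
    ∀ a : K, eval (fun o => o.elim (a ^ 2 * W) (fun i => a * Y i)) f = 0}

/-- the ideal of the local Zariski closure of the set of rational points of the branch divisor -/
def BJ (σ : K →+* L) (F : MvPolynomial (Fin (n + 1)) K) (x : Fin (n + 1) → L) :
    Set (MvPolynomial (Fin (n + 1)) K) :=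
  {f | ∃ U ∈ 𝓝 x, ∀ Y : Fin (n + 1) → K, Y ≠ 0 → eval Y F = 0 →
    (∃ c : L, c ≠ 0 ∧ (fun i => c * σ (Y i)) ∈ U) → ∀ a : K, eval (a • Y) f = 0}

/-- the ideal of a set of points -/
def QJ (S : Set (K × (Fin (n + 1) → K))) : Set (MvPolynomial (Option (Fin (n + 1))) K) :=
  {f | ∀ q ∈ S, ∀ a : K, eval (fun o => o.elim (a ^ 2 * q.1) (fun i => a * q.2 i)) f = 0}

/-- the polynomials whose restriction to `w = 0` belongs to a set -/
def RJ (P : Set (MvPolynomial (Fin (n + 1)) K)) : Set (MvPolynomial (Option (Fin (n + 1))) K) :=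
  {f | aeval (fun o : Option (Fin (n + 1)) => o.elim (0 : MvPolynomial (Fin (n + 1)) K) X) f ∈ P}

lemma res_eval (f : MvPolynomial (Option (Fin (n + 1))) K) (Y : Fin (n + 1) → K) :
    eval Y (aeval (fun o : Option (Fin (n + 1)) =>
      o.elim (0 : MvPolynomial (Fin (n + 1)) K) X) f) = eval (fun o => o.elim 0 Y) f := by
  induction f using MvPolynomial.induction_on with
  | C c => simp
  | add p q hp hq => simp only [map_add, hp, hq]
  | mul_X p o hp =>
    rw [map_mul, map_mul, hp, map_mul, aeval_X, eval_X]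
    rcases o with _ | i
    · simp
    · simp

variable {σ : K →+* L}

/-- **The local Zariski closures.** -/
theorem LJ_fin {F : MvPolynomial (Fin (n + 1)) K} (hF : F.IsHomogeneous 4)
    {T : Set (Fin (n + 1) → K)} (hT : T.Finite)
    (hI : ∀ (Y : Fin (n + 1) → K) (W : K), W ≠ 0 → W ^ 2 = eval Y F →
      (∀ t ∈ T, ∀ c : K, Y ≠ c • t) → ∀ U ∈ 𝓝 (σ W, fun a => σ (Y a)),
      ∀ f : MvPolynomial (Option (Fin (n + 1))) K,
        (∀ (z : Fin (n + 1) → K) (w : K), w ^ 2 = eval z F → (σ w, fun a => σ (z a)) ∈ U →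
          eval (fun o => o.elim w z) f = 0) →
        ∀ (z : Fin (n + 1) → K) (w : K), w ^ 2 = eval z F → eval (fun o => o.elim w z) f = 0)
    {E : Set (L × (Fin (n + 1) → L))} (hB : {J | ∃ x, (0, x) ∈ E ∧ J = BJ σ F x}.Finite) :
    {J | ∃ (w : L) (x : Fin (n + 1) → L), (w, x) ∈ E ∧ J = LJ σ F w x}.Finite := by
  classical
  -- the exceptional points
  set Bd : Set (K × (Fin (n + 1) → K)) := {q | q.2 ∈ T ∧ q.2 ≠ 0 ∧ q.1 ^ 2 = eval q.2 F}
    with hBd
  have hBfin : Bd.Finite := by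
    have h1 : Bd ⊆ ⋃ t ∈ T, (fun w : K => (w, t)) '' {w | w ^ 2 = eval t F} := by
      rintro ⟨w, t⟩ ⟨h1, -, h2⟩
      simp only [Set.mem_iUnion]
      exact ⟨t, h1, w, h2, rfl⟩
    refine (hT.biUnion fun t _ => Set.Finite.image _ ?_).subset h1
    by_cases hne : ∃ w0 : K, w0 ^ 2 = eval t F
    · obtain ⟨w0, hw0⟩ := hne
      refine ((Set.finite_singleton w0).union (Set.finite_singleton (-w0))).subset ?_
      intro w hw
      have hw : w ^ 2 = eval t F := hw
      rw [← hw0] at hw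
      rcases sq_eq_sq_iff_eq_or_eq_neg.mp hw with h | h
      · exact Or.inl h
      · exact Or.inr h
    · refine Set.finite_empty.subset ?_
      intro w hw
      exact absurd ⟨w, hw⟩ hne
  have hdich : ∀ (W : K) (Y : Fin (n + 1) → K), Y ≠ 0 → W ^ 2 = eval Y F →
      (∃ t ∈ T, ∃ c : K, Y = c • t) → ∃ q ∈ Bd, ∃ d : K, d ≠ 0 ∧ W = d ^ 2 * q.1 ∧
        Y = d • q.2 := by
    rintro W Y hY hWY ⟨t, ht, c, rfl⟩
    have hc : c ≠ 0 := by
      rintro rfl
      exact hY (zero_smul _ _)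
    have ht0 : t ≠ 0 := by
      rintro rfl
      exact hY (smul_zero _)
    refine ⟨(W / c ^ 2, t), ⟨ht, ht0, ?_⟩, c, hc, ?_, rfl⟩
    · rw [hom_smul hF] at hWY
      show (W / c ^ 2) ^ 2 = _
      rw [div_pow, hWY]
      field_simp
    · show W = c ^ 2 * (W / c ^ 2)
      field_simp
  set 𝓑 : Set (Set (MvPolynomial (Fin (n + 1)) K)) :=
    {Set.univ} ∪ {J | ∃ x, (0, x) ∈ E ∧ J = BJ σ F x} with h𝓑
  have h𝓑fin : 𝓑.Finite := (Set.finite_singleton _).union hB
  have hfin : ({QJ {q : K × (Fin (n + 1) → K) | q.1 ^ 2 = eval q.2 F}} ∪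
      (fun P : Set (K × (Fin (n + 1) → K)) × Set (MvPolynomial (Fin (n + 1)) K) =>
        QJ P.1 ∩ RJ P.2) '' ({S | S ⊆ Bd} ×ˢ 𝓑)).Finite :=
    (Set.finite_singleton _).union ((hBfin.finite_subsets.prod h𝓑fin).image _)
  refine hfin.subset ?_
  rintro _ ⟨w, x, hE, rfl⟩
  by_cases hgood : ∀ U ∈ 𝓝 (w, x), ∃ (W : K) (Y : Fin (n + 1) → K), W ≠ 0 ∧
      W ^ 2 = eval Y F ∧ (∀ t ∈ T, ∀ c : K, Y ≠ c • t) ∧
      ∃ c : L, c ≠ 0 ∧ (c ^ 2 * σ W, fun i => c * σ (Y i)) ∈ U
  · left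
    rw [Set.mem_singleton_iff]
    ext f
    constructor
    · rintro ⟨U, hU, hf⟩
      obtain ⟨U', hU'U, hU'o, hU'x⟩ := mem_nhds_iff.1 hU
      obtain ⟨W, Y, hW, hWY, hYT, c, hc, hcU⟩ := hgood U' (hU'o.mem_nhds hU'x)
      have hY0 : Y ≠ 0 := ne_zero_of_val hF (by rw [← hWY]; exact pow_ne_zero 2 hW)
      have hcont : Continuous fun e : L × (Fin (n + 1) → L) => (c ^ 2 * e.1, fun i => c * e.2 i) := by
        fun_prop
      have h1 := hI Y W hW hWY hYT ((fun e : L × (Fin (n + 1) → L) =>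
          (c ^ 2 * e.1, fun i => c * e.2 i)) ⁻¹' U' ∩ {e | e.2 ≠ 0})
          (Filter.inter_mem (hcont.continuousAt.preimage_mem_nhds
            (hU'o.mem_nhds hcU)) (by
              have hne : (fun a => σ (Y a)) ≠ (0 : Fin (n + 1) → L) := by
                intro h0
                apply hY0
                funext a
                have := congrFun h0 a
                exact (map_eq_zero σ).1 this
              exact (isOpen_ne_fun continuous_snd continuous_const).mem_nhds hne)) f (by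
          intro z v hzv hmem
          have hz0 : z ≠ 0 := by
            rintro rfl
            apply hmem.2
            funext a
            simp
          have h2 := hf v z hz0 hzv ⟨c, hc, hU'U hmem.1⟩ 1
          have h3 : (fun o : Option (Fin (n + 1)) => o.elim ((1 : K) ^ 2 * v) fun i => 1 * z i) =
              fun o => o.elim v z := by
            funext o
            rcases o with _ | i
            · simp
            · simp
          rw [h3] at h2
          exact h2)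
      rintro ⟨v, z⟩ hvz a
      have hvz : v ^ 2 = eval z F := hvz
      exact h1 (a • z) (a ^ 2 * v) (by
        rw [hom_smul hF, ← hvz]
        ring)
    · intro hf
      refine ⟨Set.univ, Filter.univ_mem, fun W Y _ hWY _ a => ?_⟩
      exact hf (W, Y) hWY a
  · right
    push Not at hgood
    obtain ⟨U₀, hU₀, hU₀'⟩ := hgood
    set S : Set (K × (Fin (n + 1) → K)) := {q | q ∈ Bd ∧ ∀ U ∈ 𝓝 (w, x),
      ∃ c : L, c ≠ 0 ∧ (c ^ 2 * σ q.1, fun i => c * σ (q.2 i)) ∈ U} with hS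
    set P : Set (MvPolynomial (Fin (n + 1)) K) := if w = 0 then BJ σ F x else Set.univ with hP
    have hP𝓑 : P ∈ 𝓑 := by
      rw [hP]
      split_ifs with hw
      · subst hw
        exact Or.inr ⟨x, hE, rfl⟩
      · exact Or.inl rfl
    refine ⟨(S, P), ⟨fun q hq => hq.1, hP𝓑⟩, ?_⟩
    have hU₁ : ∃ U₁ ∈ 𝓝 (w, x), ∀ q ∈ Bd, q ∉ S → ∀ c : L, c ≠ 0 →
        (c ^ 2 * σ q.1, fun i => c * σ (q.2 i)) ∉ U₁ := by
      have h1 : ∀ q ∈ Bd, ∃ U ∈ 𝓝 (w, x), q ∉ S → ∀ c : L, c ≠ 0 →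
          (c ^ 2 * σ q.1, fun i => c * σ (q.2 i)) ∉ U := by
        intro q hq
        by_cases hqS : q ∈ S
        · exact ⟨Set.univ, Filter.univ_mem, fun h => absurd hqS h⟩
        · have h2 : ¬ ∀ U ∈ 𝓝 (w, x), ∃ c : L, c ≠ 0 ∧
              (c ^ 2 * σ q.1, fun i => c * σ (q.2 i)) ∈ U := fun h => hqS ⟨hq, h⟩
          push Not at h2
          obtain ⟨U, hU, h3⟩ := h2
          exact ⟨U, hU, fun _ c hc => h3 c hc⟩
      choose! U hU hU' using h1
      refine ⟨⋂ q ∈ Bd, U q, (Filter.biInter_mem hBfin).2 hU, fun q hq hqS c hc hmem => ?_⟩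
      exact hU' q hq hqS c hc (Set.mem_iInter₂.1 hmem q hq)
    obtain ⟨U₁, hU₁, hU₁'⟩ := hU₁
    ext f
    constructor
    · rintro ⟨hf, hfP⟩
      have hf : f ∈ QJ S := hf
      -- a neighbourhood in which the points of the branch divisor are controlled
      have hV : ∃ V ∈ 𝓝 (w, x), ∀ (Y : Fin (n + 1) → K), Y ≠ 0 → eval Y F = 0 →
          (∃ c : L, c ≠ 0 ∧ ((0 : L), fun i => c * σ (Y i)) ∈ V) →
          ∀ a : K, eval (fun o => o.elim 0 (fun i => a * Y i)) f = 0 := by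
        by_cases hw : w = 0
        · have hfP : aeval (fun o : Option (Fin (n + 1)) =>
              o.elim (0 : MvPolynomial (Fin (n + 1)) K) X) f ∈ P := hfP
          rw [hP, if_pos hw] at hfP
          obtain ⟨V, hV, hfV⟩ := hfP
          refine ⟨{e | e.2 ∈ V}, continuous_snd.continuousAt.preimage_mem_nhds hV, ?_⟩
          rintro Y hY hFY ⟨c, hc, hcV⟩ a
          have h1 := hfV Y hY hFY ⟨c, hc, hcV⟩ a
          rw [res_eval] at h1
          exact h1
        · refine ⟨{e | e.1 ≠ 0}, (isOpen_ne_fun continuous_fst continuous_const).mem_nhds hw, ?_⟩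
          rintro Y hY hFY ⟨c, hc, hcV⟩
          exact absurd rfl hcV
      obtain ⟨V, hV, hV'⟩ := hV
      refine ⟨V ∩ (U₀ ∩ U₁), Filter.inter_mem hV (Filter.inter_mem hU₀ hU₁),
        fun W Y hY hWY hc a => ?_⟩
      obtain ⟨c, hc, hcV, hcU⟩ := hc
      by_cases hYT : ∃ t ∈ T, ∃ c : K, Y = c • t
      · obtain ⟨q, hq, d, hd, hWq, hYq⟩ := hdich W Y hY hWY hYT
        have hqS : q ∈ S := by
          by_contra hqS
          apply hU₁' q hq hqS (c * σ d) (mul_ne_zero hc ((map_ne_zero σ).2 hd))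
          have h3 := hcU.2
          rw [hWq, hYq] at h3
          convert h3 using 2
          · rw [map_mul, map_pow]; ring
          · funext i
            rw [Pi.smul_apply, smul_eq_mul, map_mul]; ring
        have h4 := hf q hqS (a * d)
        rw [hWq, hYq]
        convert h4 using 3
        funext o
        rcases o with _ | i
        · show a ^ 2 * (d ^ 2 * q.1) = (a * d) ^ 2 * q.1
          ring
        · show a * (d • q.2) i = a * d * q.2 i
          rw [Pi.smul_apply, smul_eq_mul]; ring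
      · push Not at hYT
        have hW : W = 0 := by
          by_contra hW
          exact hU₀' W Y hW hWY hYT c hc hcU.1
        subst hW
        rw [mul_zero]
        rw [map_zero, mul_zero] at hcV
        exact hV' Y hY (by rw [← hWY]; ring) ⟨c, hc, hcV⟩ a
    · rintro ⟨U, hU, hf⟩
      refine ⟨fun q hq a => ?_, ?_⟩
      · obtain ⟨c, hc, hcU⟩ := hq.2 U hU
        exact hf q.1 q.2 hq.1.2.1 hq.1.2.2 ⟨c, hc, hcU⟩ a
      · show aeval (fun o : Option (Fin (n + 1)) =>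
              o.elim (0 : MvPolynomial (Fin (n + 1)) K) X) f ∈ P
        rw [hP]
        split_ifs with hw
        · subst hw
          have hcont : Continuous fun x' : Fin (n + 1) → L => ((0 : L), x') := by fun_prop
          refine ⟨_, hcont.continuousAt.preimage_mem_nhds hU, ?_⟩
          rintro Y hY hFY ⟨c, hc, hcU⟩ a
          rw [res_eval]
          have h1 := hf 0 Y hY (by rw [hFY]; ring) ⟨c, hc, by
            rw [map_zero, mul_zero]
            exact hcU⟩ a
          rw [mul_zero] at h1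
          exact h1
        · exact Set.mem_univ _

/-- **The local closures at good points.** -/
theorem LJ_good {F : MvPolynomial (Fin (n + 1)) K} (hF : F.IsHomogeneous 4)
    {Y : Fin (n + 1) → K} {W : K} (hW : W ≠ 0) (hWY : W ^ 2 = eval Y F)
    (hI : ∀ U ∈ 𝓝 (σ W, fun a => σ (Y a)), ∀ f : MvPolynomial (Option (Fin (n + 1))) K,
        (∀ (z : Fin (n + 1) → K) (w : K), w ^ 2 = eval z F → (σ w, fun a => σ (z a)) ∈ U →
          eval (fun o => o.elim w z) f = 0) →
        ∀ (z : Fin (n + 1) → K) (w : K), w ^ 2 = eval z F → eval (fun o => o.elim w z) f = 0) :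
    LJ σ F (σ W) (fun a => σ (Y a)) =
      {f | ∀ (z : Fin (n + 1) → K) (w : K), w ^ 2 = eval z F →
        eval (fun o => o.elim w z) f = 0} := by
  have hY0 : Y ≠ 0 := ne_zero_of_val hF (by rw [← hWY]; exact pow_ne_zero 2 hW)
  have hne : (fun a => σ (Y a)) ≠ (0 : Fin (n + 1) → L) := by
    intro h0
    apply hY0
    funext a
    exact (map_eq_zero σ).1 (congrFun h0 a)
  ext f
  constructor
  · rintro ⟨U, hU, hf⟩
    refine hI (U ∩ {e | e.2 ≠ 0}) (Filter.inter_mem hU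
      ((isOpen_ne_fun continuous_snd continuous_const).mem_nhds hne)) f ?_
    intro z v hzv hmem
    have hz0 : z ≠ 0 := by
      rintro rfl
      apply hmem.2
      funext a
      simp
    have h2 := hf v z hz0 hzv ⟨1, one_ne_zero, by simpa using hmem.1⟩ 1
    have h3 : (fun o : Option (Fin (n + 1)) => o.elim ((1 : K) ^ 2 * v) fun i => 1 * z i) =
        fun o => o.elim v z := by
      funext o
      rcases o with _ | i
      · simp
      · simp
    rw [h3] at h2
    exact h2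
  · intro hf
    refine ⟨Set.univ, Filter.univ_mem, fun W Y _ hWY _ a => ?_⟩
    exact hf (fun i => a * Y i) (a ^ 2 * W) (by
      have : (fun i => a * Y i) = a • Y := rfl
      rw [this, hom_smul hF, ← hWY]
      ring)

/-- finitely many rational points on the branch divisor -/
theorem BJ_fin {F : MvPolynomial (Fin (n + 1)) K} (hF : F.IsHomogeneous 4)
    {B : Set (Fin (n + 1) → K)} (hB : B.Finite)
    (hB' : ∀ Y : Fin (n + 1) → K, eval Y F = 0 → ∃ t ∈ B, ∃ c : K, Y = c • t) :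
    {J | ∃ x, J = BJ σ F x}.Finite := by
  refine (hB.finite_subsets.image fun S : Set (Fin (n + 1) → K) =>
    {f : MvPolynomial (Fin (n + 1)) K | ∀ b ∈ S, b ≠ 0 → eval b F = 0 → ∀ a : K,
      eval (a • b) f = 0}).subset ?_
  rintro _ ⟨x, rfl⟩
  set S : Set (Fin (n + 1) → K) := {b | b ∈ B ∧ ∀ U ∈ 𝓝 x, ∃ c : L, c ≠ 0 ∧
    (fun i => c * σ (b i)) ∈ U} with hS
  refine ⟨S, fun b hb => hb.1, ?_⟩
  have hU₁ : ∃ U₁ ∈ 𝓝 x, ∀ b ∈ B, b ∉ S → ∀ c : L, c ≠ 0 → (fun i => c * σ (b i)) ∉ U₁ := by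
    have h1 : ∀ b ∈ B, ∃ U ∈ 𝓝 x, b ∉ S → ∀ c : L, c ≠ 0 → (fun i => c * σ (b i)) ∉ U := by
      intro b hb
      by_cases hbS : b ∈ S
      · exact ⟨Set.univ, Filter.univ_mem, fun h => absurd hbS h⟩
      · have h2 : ¬ ∀ U ∈ 𝓝 x, ∃ c : L, c ≠ 0 ∧ (fun i => c * σ (b i)) ∈ U :=
          fun h => hbS ⟨hb, h⟩
        push Not at h2
        obtain ⟨U, hU, h3⟩ := h2
        exact ⟨U, hU, fun _ c hc => h3 c hc⟩
    choose! U hU hU' using h1
    refine ⟨⋂ b ∈ B, U b, (Filter.biInter_mem hB).2 hU, fun b hb hbS c hc hmem => ?_⟩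
    exact hU' b hb hbS c hc (Set.mem_iInter₂.1 hmem b hb)
  obtain ⟨U₁, hU₁, hU₁'⟩ := hU₁
  ext f
  constructor
  · intro hf
    refine ⟨U₁, hU₁, ?_⟩
    rintro Y hY hFY ⟨c, hc, hcU⟩ a
    obtain ⟨t, ht, d, rfl⟩ := hB' Y hFY
    have hd : d ≠ 0 := by
      rintro rfl
      exact hY (zero_smul _ _)
    have ht0 : t ≠ 0 := by
      rintro rfl
      exact hY (smul_zero _)
    have htS : t ∈ S := by
      by_contra htS
      apply hU₁' t ht htS (c * σ d) (mul_ne_zero hc ((map_ne_zero σ).2 hd))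
      convert hcU using 2 with i
      rw [Pi.smul_apply, smul_eq_mul, map_mul]; ring
    rw [smul_smul]
    refine hf t htS ht0 ?_ (a * d)
    rw [hom_smul hF, mul_eq_zero] at hFY
    exact hFY.resolve_left (pow_ne_zero 4 hd)
  · rintro ⟨U, hU, hf⟩ b hb hb0 hFb a
    obtain ⟨c, hc, hcU⟩ := hb.2 U hU
    exact hf b hb0 hFb ⟨c, hc, hcU⟩ a

end L

end Pool.Agent.Y718.LZ
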