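import Pool.Agent.Y718.LZ.Cone

/-!
# Local Zariski density: the ideal of the points close to a point
-/

set_option autoImplicit false
set_option linter.unusedVariables false
set_option linter.unusedSectionVars false

open MvPolynomial Pool.Agent.Y718 Pool.Agent.Y718.SF Pool.Agent.Y718.CL Pool.Agent.Y720.MZ
open WeierstrassCurve Filter Topology Pool.Agent.Y718.FQ

namespace Pool.Agent.Y718.LZ

section lz

variable {K : Type} [Field K] [CharZero K] {n : ℕ} {L : Type*} [NontriviallyNormedField L]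
  [ProperSpace L]

/-- **Local Zariski density.** -/
theorem lz0 {p : ℕ} [Fact p.Prime] (ρ : K →+* ℚ_[p]) (σ : K →+* L) {f : MvPolynomial (Fin n) K}
    (hf : f.totalDegree ≤ 4) {x0 : Fin n ⊕ Unit → K} (hx0 : x0 ∈ FQ.X0 f)
    (hio : ∃ e : Fin n → ℚ_[p], IOt (th (MvPolynomial.map ρ f) e (fun j => ρ (x0 (Sum.inl j)))
      (ρ (x0 (Sum.inr ()))))) {U : Set (Fin n ⊕ Unit → L)}
    (hU : U ∈ 𝓝 (fun i => σ (x0 i))) {h : MvPolynomial (Fin n ⊕ Unit) K}
    (hh : ∀ x ∈ XK f, (fun i => σ (x i)) ∈ U → eval x h = 0)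
    {α β : Polynomial (MvPolynomial (Fin n) K)}
    (hab : ∀ (e : Fin n → K) (s w : K), w ^ 2 = eval ((fun j => x0 (Sum.inl j)) + s • e) f →
      eval (Sum.elim ((fun j => x0 (Sum.inl j)) + s • e) fun _ => w) h =
        (α.map (eval e)).eval s + (β.map (eval e)).eval s * w) : α = 0 ∧ β = 0 := by
  classical
  obtain ⟨hx1, hx2⟩ := hx0
  set z0 : Fin n → K := fun j => x0 (Sum.inl j) with hz0
  set y : K := x0 (Sum.inr ()) with hy
  obtain ⟨e₀, he₀⟩ := hio
  obtain ⟨r, hr, hrb⟩ := dir_open ((map_ne_zero ρ).2 hx2) he₀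
  -- a box of directions
  set T : Fin n → Set K := fun a => {k | ‖ρ k - e₀ a‖ < r} with hT
  have hTinf : ∀ a, (T a).Infinite := by
    intro a
    have h1 : Set.Infinite {q : ℚ | ‖(q : ℚ_[p]) - e₀ a‖ < r} := by
      intro hfin
      -- the rational numbers are dense and the ball has no isolated points
      have h2 : Dense (((↑) : ℚ → ℚ_[p]) '' {q : ℚ | ‖(q : ℚ_[p]) - e₀ a‖ < r}ᶜ) := by
        have h3 : (Set.range ((↑) : ℚ → ℚ_[p])) \ (((↑) : ℚ → ℚ_[p]) ''
            {q : ℚ | ‖(q : ℚ_[p]) - e₀ a‖ < r}) ⊆ ((↑) : ℚ → ℚ_[p]) ''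
              {q : ℚ | ‖(q : ℚ_[p]) - e₀ a‖ < r}ᶜ := by
          rintro _ ⟨⟨q, rfl⟩, hq⟩
          exact ⟨q, fun h => hq ⟨q, h, rfl⟩, rfl⟩
        refine Dense.mono h3 (Dense.sdiff_finite ?_ (hfin.image _))
        intro x
        rw [Metric.mem_closure_iff]
        intro ε hε
        obtain ⟨q, hq⟩ := Padic.rat_dense p x hε
        exact ⟨q, ⟨q, rfl⟩, by rw [dist_eq_norm]; exact hq⟩
      obtain ⟨_, ⟨q, hq, rfl⟩, hx⟩ := h2.exists_mem_open Metric.isOpen_ball
        ⟨e₀ a, Metric.mem_ball_self hr⟩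
      apply hq
      have := hx
      rw [Metric.mem_ball, dist_eq_norm] at this
      exact this
    refine (h1.image (f := fun q : ℚ => (q : K)) (Rat.cast_injective.injOn)).mono ?_
    rintro _ ⟨q, hq, rfl⟩
    show ‖ρ (q : K) - e₀ a‖ < r
    rw [map_ratCast]
    exact hq
  -- the directions in the box
  have hdir : ∀ e ∈ Set.pi Set.univ T, α.map (eval e) = 0 ∧ β.map (eval e) = 0 := by
    intro e he
    have h1 : IOt (th (MvPolynomial.map ρ f) (fun a => ρ (e a)) (fun j => ρ (z0 j)) (ρ y)) :=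
      hrb _ fun a => he a (Set.mem_univ a)
    rw [th_map] at h1
    obtain ⟨h2, h3⟩ := io_desc ρ h1
    have hdeg : (lg f z0 e).natDegree ≤ 4 := (lg_natDegree _ _ _).trans hf
    have hDb : X.Db (lg f z0 e) ≠ 0 := by
      rw [← Tq_Db]
      have h4 : Tq f e z0 = dsc (tA (th f e z0 y)) (tB (th f e z0 y)) (tC (th f e z0 y)) := by
        rw [Tq, ← (show y ^ 2 = eval z0 f from hx1)]
        rfl
      rw [h4]
      exact h2
    apply ab_zero hdeg hDb
    -- infinitely many points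
    have hpts : ∀ ε : ℝ, 0 < ε → ∃ t Y : K, t ≠ 0 ∧ ‖σ t‖ < ε ∧ ‖σ (Y - y)‖ < ε ∧
        Y ^ 2 = y ^ 2 + cq f z0 e 0 * t + cq f z0 e 1 * t ^ 2 + cq f z0 e 2 * t ^ 3 +
          cq f z0 e 3 * t ^ 4 := fun ε hε =>
      @quartic_dense K _ _ L _ (Classical.decEq K) _ σ _ _ _ _ _ hx2 h2 h3 _ hε
    have hval : ∀ t : K, y ^ 2 + cq f z0 e 0 * t + cq f z0 e 1 * t ^ 2 + cq f z0 e 2 * t ^ 3 +
        cq f z0 e 3 * t ^ 4 = eval (z0 + t • e) f := by
      intro t
      rw [← lg_eval, Polynomial.eval_eq_sum_range' (n := 5) (by omega)]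
      simp only [Finset.sum_range_succ, Finset.sum_range_zero]
      have e0 : (lg f z0 e).coeff 0 = y ^ 2 := by
        rw [Polynomial.coeff_zero_eq_eval_zero, lg_eval, zero_smul, add_zero]
        exact (show y ^ 2 = eval z0 f from hx1).symm
      rw [e0]
      have e1 : ∀ j : Fin 4, cq f z0 e j = (lg f z0 e).coeff ((j : ℕ) + 1) := fun j => rfl
      rw [e1, e1, e1, e1]
      simp
    -- neighbourhoods
    obtain ⟨δ, hδ, hδU⟩ := Metric.mem_nhds_iff.1 hU
    have hnear : ∃ ε : ℝ, 0 < ε ∧ ∀ t Y : K, ‖σ t‖ < ε → ‖σ (Y - y)‖ < ε →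
        (fun i => σ (Sum.elim (z0 + t • e) (fun _ : Unit => Y) i)) ∈ U := by
      set M : ℝ := 1 + ∑ a, ‖σ (e a)‖ with hM
      have hM1 : 1 ≤ M := le_add_of_nonneg_right (Finset.sum_nonneg fun a _ => norm_nonneg _)
      refine ⟨δ / M, by positivity, fun t Y ht hY => hδU ?_⟩
      rw [Metric.mem_ball, dist_pi_lt_iff hδ]
      intro i
      rcases i with j | u
      · rw [dist_eq_norm]
        have e1 : σ (Sum.elim (z0 + t • e) (fun _ : Unit => Y) (Sum.inl j)) - σ (x0 (Sum.inl j)) =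
            σ t * σ (e j) := by
          simp only [Sum.elim_inl, Pi.add_apply, Pi.smul_apply, smul_eq_mul, map_add, map_mul]
          ring
        rw [e1, norm_mul]
        have h5 : ‖σ (e j)‖ ≤ M := by
          have := Finset.single_le_sum (f := fun a => ‖σ (e a)‖) (fun a _ => norm_nonneg _)
            (Finset.mem_univ j)
          linarith
        calc ‖σ t‖ * ‖σ (e j)‖ ≤ ‖σ t‖ * M := by gcongr
          _ < δ / M * M := by gcongr
          _ = δ := by field_simp
      · rw [dist_eq_norm]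
        have e1 : σ (Sum.elim (z0 + t • e) (fun _ : Unit => Y) (Sum.inr u)) - σ (x0 (Sum.inr u)) =
            σ (Y - y) := by
          rw [map_sub]
          rfl
        rw [e1]
        exact hY.trans_le (div_le_self hδ.le hM1)
    obtain ⟨ε₀, hε₀, hε₀U⟩ := hnear
    have hinf : Set.Infinite {t : K | (((α.map (eval e)) ^ 2 - (β.map (eval e)) ^ 2 *
        lg f z0 e : Polynomial K)).eval t = 0} := by
      intro hfin
      have h4 : ∃ ε₁ : ℝ, 0 < ε₁ ∧ ∀ t ∈ {t : K | (((α.map (eval e)) ^ 2 - (β.map (eval e)) ^ 2 *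
          lg f z0 e : Polynomial K)).eval t = 0}, t ≠ 0 → ε₁ ≤ ‖σ t‖ := by
        refine Set.Finite.induction_on _ hfin ⟨1, one_pos, fun t ht => absurd ht (Set.notMem_empty t)⟩
          ?_
        rintro a s - - ⟨ε₁, hε₁, h5⟩
        by_cases ha : a = 0
        · refine ⟨ε₁, hε₁, fun t ht ht0 => ?_⟩
          rcases ht with rfl | ht
          · exact absurd ha ht0
          · exact h5 t ht ht0
        · refine ⟨min ε₁ ‖σ a‖, lt_min hε₁ (norm_pos_iff.2 ((map_ne_zero σ).2 ha)),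
            fun t ht ht0 => ?_⟩
          rcases ht with rfl | ht
          · exact min_le_right _ _
          · exact (min_le_left _ _).trans (h5 t ht ht0)
      obtain ⟨ε₁, hε₁, h5⟩ := h4
      obtain ⟨t, Y, ht0, ht, hY, hYe⟩ := hpts (min ε₀ ε₁) (lt_min hε₀ hε₁)
      rw [hval] at hYe
      have h6 := hh (Sum.elim (z0 + t • e) (fun _ => Y)) hYe
        (hε₀U t Y (ht.trans_le (min_le_left _ _)) (hY.trans_le (min_le_left _ _)))
      rw [hab e t Y hYe] at h6
      have h7 : (((α.map (eval e)) ^ 2 - (β.map (eval e)) ^ 2 * lg f z0 e : Polynomial K)).eval t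
          = 0 := by
        rw [Polynomial.eval_sub, Polynomial.eval_mul, Polynomial.eval_pow, Polynomial.eval_pow,
          lg_eval, ← hYe]
        linear_combination ((α.map (eval e)).eval t - (β.map (eval e)).eval t * Y) * h6
      exact absurd (ht.trans_le (min_le_right _ _)) (not_lt.2 (h5 t h7 ht0))
    have h8 := Polynomial.eq_zero_of_infinite_isRoot _ hinf
    exact sub_eq_zero.1 h8
  have hα : α = 0 := by
    ext1 k
    rw [Polynomial.coeff_zero]
    refine MvPolynomial.funext_set T hTinf fun e he => ?_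
    rw [← Polynomial.coeff_map, (hdir e he).1, Polynomial.coeff_zero, map_zero]
  have hβ : β = 0 := by
    ext1 k
    rw [Polynomial.coeff_zero]
    refine MvPolynomial.funext_set T hTinf fun e he => ?_
    rw [← Polynomial.coeff_map, (hdir e he).2, Polynomial.coeff_zero, map_zero]
  exact ⟨hα, hβ⟩

/-- normal form modulo the equation -/
lemma normal_form (f : MvPolynomial (Fin n) K) (h : MvPolynomial (Fin n ⊕ Unit) K) :
    ∃ (A B : MvPolynomial (Fin n) K) (Q : MvPolynomial (Fin n ⊕ Unit) K),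
      h = rename Sum.inl A + X (Sum.inr ()) * rename Sum.inl B +
        (X (Sum.inr ()) ^ 2 - rename Sum.inl f) * Q := by
  induction h using MvPolynomial.induction_on with
  | C c => exact ⟨C c, 0, 0, by simp⟩
  | add p q hp hq =>
    obtain ⟨A, B, Q, h1⟩ := hp
    obtain ⟨A', B', Q', h2⟩ := hq
    exact ⟨A + A', B + B', Q + Q', by rw [h1, h2, map_add, map_add]; ring⟩
  | mul_X p j hp =>
    obtain ⟨A, B, Q, h1⟩ := hp
    rcases j with j | u
    · exact ⟨A * X j, B * X j, Q * X (Sum.inl j), by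
        rw [map_mul, map_mul, rename_X]
        linear_combination (X (Sum.inl j)) * h1⟩
    · exact ⟨f * B, A, Q * X (Sum.inr ()) + rename Sum.inl B, by
        rw [map_mul]
        linear_combination (X (Sum.inr ())) * h1⟩

/-- substitution of a point of a line -/
noncomputable def onL (z0 : Fin n → K) (A : MvPolynomial (Fin n) K) :
    Polynomial (MvPolynomial (Fin n) K) :=
  aeval (fun j => Polynomial.C (C (z0 j)) + Polynomial.C (X j) * Polynomial.X) A

lemma onL_eval (z0 e : Fin n → K) (s : K) (A : MvPolynomial (Fin n) K) :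
    ((onL z0 A).map (eval e)).eval s = eval (z0 + s • e) A := by
  unfold onL
  induction A using MvPolynomial.induction_on with
  | C c =>
    rw [← algebraMap_eq, AlgHom.commutes, algebraMap_eq, eval_C]
    simp
  | add p q hp hq => simp only [map_add, Polynomial.map_add, Polynomial.eval_add, hp, hq]
  | mul_X p j hp =>
    rw [map_mul, Polynomial.map_mul, Polynomial.eval_mul, hp, aeval_X, map_mul, eval_X]
    simp only [Polynomial.map_add, Polynomial.map_mul, Polynomial.map_C, Polynomial.map_X,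
      Polynomial.eval_add, Polynomial.eval_mul, Polynomial.eval_C, Polynomial.eval_X, eval_C,
      eval_X, Pi.add_apply, Pi.smul_apply, smul_eq_mul]
    ring

lemma onL_zero {z0 : Fin n → K} {A : MvPolynomial (Fin n) K} (h : onL z0 A = 0) : A = 0 := by
  apply MvPolynomial.funext
  intro z
  have h1 := onL_eval z0 (z - z0) 1 A
  rw [h, one_smul, add_sub_cancel] at h1
  rw [← h1]
  simp

/-- **Local Zariski density, the form with ideals.** -/
theorem lz_dvd {p : ℕ} [Fact p.Prime] (ρ : K →+* ℚ_[p]) (σ : K →+* L)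
    {f : MvPolynomial (Fin n) K}
    (hf : f.totalDegree ≤ 4) {x0 : Fin n ⊕ Unit → K} (hx0 : x0 ∈ FQ.X0 f)
    (hio : ∃ e : Fin n → ℚ_[p], IOt (th (MvPolynomial.map ρ f) e (fun j => ρ (x0 (Sum.inl j)))
      (ρ (x0 (Sum.inr ()))))) {U : Set (Fin n ⊕ Unit → L)}
    (hU : U ∈ 𝓝 (fun i => σ (x0 i))) {h : MvPolynomial (Fin n ⊕ Unit) K}
    (hh : ∀ x ∈ XK f, (fun i => σ (x i)) ∈ U → eval x h = 0) :
    X (Sum.inr ()) ^ 2 - rename Sum.inl f ∣ h := by
  obtain ⟨A, B, Q, hAB⟩ := normal_form f h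
  have h1 := lz0 ρ σ hf hx0 hio hU hh (α := onL (fun j => x0 (Sum.inl j)) A)
    (β := onL (fun j => x0 (Sum.inl j)) B) (by
      intro e s w hw
      rw [hAB, onL_eval, onL_eval]
      simp only [map_add, map_mul, map_sub, map_pow, eval_X, eval_rename, Sum.elim_inr,
        Sum.elim_comp_inl]
      rw [hw]
      ring)
  rw [onL_zero h1.1, onL_zero h1.2] at hAB
  exact ⟨Q, by rw [hAB]; simp⟩

end lz

section cone

variable {K : Type} [Field K] [CharZero K] {n : ℕ}

/-- **Local Zariski density on the cone, the form with ideals.** -/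
theorem cone_dvd {p : ℕ} [Fact p.Prime] (ρ : K →+* ℚ_[p]) (hn : 2 ≤ n)
    {F : MvPolynomial (Fin (n + 1)) K} (hF : F.IsHomogeneous 4)
    (hsm : ∀ y : Fin (n + 1) → AlgebraicClosure K, (∀ i, aeval y (pderiv i F) = 0) → y = 0) :
    ∃ T : Set (Fin (n + 1) → K), T.Finite ∧ ∀ (L : Type) [NontriviallyNormedField L]
      [ProperSpace L] (σ : K →+* L) (Y : Fin (n + 1) → K) (W : K), W ≠ 0 → W ^ 2 = eval Y F →
      (∀ t ∈ T, ∀ c : K, Y ≠ c • t) → ∀ U ∈ 𝓝 (σ W, fun a => σ (Y a)),
      ∀ f : MvPolynomial (Option (Fin (n + 1))) K,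
        (∀ (z : Fin (n + 1) → K) (w : K), w ^ 2 = eval z F → (σ w, fun a => σ (z a)) ∈ U →
          eval (fun o => o.elim w z) f = 0) →
        X none ^ 2 - rename some F ∣ f := by
  obtain ⟨φ⟩ := Pool.Agent.Y447.CL.emb p
  have hs : Smooth (MvPolynomial.map φ (MvPolynomial.map ρ F)) := by
    rw [MvPolynomial.map_map]
    exact Pool.Agent.Y362.CL.smt K (n + 1) F hsm _
  obtain ⟨T, hT, hbad⟩ := bad_K ρ φ hn hF hs
  refine ⟨T, hT, fun L _ _ σ Y W hW hWY hYT U hU f hf => ?_⟩
  have hv : eval (fun i => ρ (Y i)) (MvPolynomial.map ρ F) = ρ (eval Y F) := by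
    rw [eval_map]
    exact ((eval₂_comp_left ρ (RingHom.id K) Y F).trans rfl).symm
  have hio : ∃ e : Fin (n + 1) → ℚ_[p], IOt (th (MvPolynomial.map ρ F) e (fun j => ρ (Y j))
      (ρ W)) := by
    refine loc_io Pool.Agent.Y165.CL.ufd Pool.Agent.Y447.CL.bai Pool.Agent.Y447.CL.lin
      Pool.Agent.Y718.CL.Sep.sep φ (by omega) (hF.map ρ) hs ?_ ((map_ne_zero ρ).2 hW)
      (hbad Y (by rw [← hWY]; exact pow_ne_zero 2 hW) hYT)
    show _ = _
    rw [hv, ← hWY, map_pow]
  have hcont : Continuous fun e : Fin (n + 1) ⊕ Unit → L =>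
      (e (Sum.inr ()), fun a : Fin (n + 1) => e (Sum.inl a)) := by fun_prop
  have h2 := lz_dvd ρ σ (f := F) hF.totalDegree_le
    (x0 := Sum.elim Y fun _ => W) ⟨hWY, hW⟩ hio
    (U := (fun e : Fin (n + 1) ⊕ Unit → L =>
      (e (Sum.inr ()), fun a : Fin (n + 1) => e (Sum.inl a))) ⁻¹' U)
    (hcont.continuousAt.preimage_mem_nhds hU) (h := rename (oe (n + 1)) f) (by
      intro x hx hxU
      rw [eval_oe]
      exact hf _ _ hx hxU)
  obtain ⟨Q, hQ⟩ := h2
  refine ⟨rename (Sum.elim some fun _ => none) Q, ?_⟩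
  have h3 := congrArg (rename (Sum.elim (some : Fin (n + 1) → Option (Fin (n + 1)))
    fun _ : Unit => none)) hQ
  rw [rename_rename, map_mul, map_sub, map_pow, rename_X, rename_rename] at h3
  have h4 : (Sum.elim (some : Fin (n + 1) → Option (Fin (n + 1))) fun _ : Unit => none) ∘
      oe (n + 1) = id := by
    funext o
    rcases o with _ | i <;> rfl
  rw [h4, rename_id_apply] at h3
  exact h3

lemma van_of_dvd {F : MvPolynomial (Fin (n + 1)) K} {f : MvPolynomial (Option (Fin (n + 1))) K}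
    (h : X none ^ 2 - rename some F ∣ f) (z : Fin (n + 1) → K) (w : K) (hzw : w ^ 2 = eval z F) :
    eval (fun o => o.elim w z) f = 0 := by
  obtain ⟨Q, rfl⟩ := h
  have h1 : eval (fun o : Option (Fin (n + 1)) => o.elim w z) (rename some F) = eval z F := by
    rw [eval_rename]
    rfl
  rw [map_mul, map_sub, map_pow, eval_X, h1]
  change (w ^ 2 - _) * _ = 0
  rw [hzw, sub_self, zero_mul]

/-- **The local closures at good points.** -/
theorem LJ_dvd {L : Type} [NontriviallyNormedField L] {σ : K →+* L}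
    {F : MvPolynomial (Fin (n + 1)) K} (hF : F.IsHomogeneous 4)
    {Y : Fin (n + 1) → K} {W : K} (hW : W ≠ 0) (hWY : W ^ 2 = eval Y F)
    (hI : ∀ U ∈ 𝓝 (σ W, fun a => σ (Y a)), ∀ f : MvPolynomial (Option (Fin (n + 1))) K,
        (∀ (z : Fin (n + 1) → K) (w : K), w ^ 2 = eval z F → (σ w, fun a => σ (z a)) ∈ U →
          eval (fun o => o.elim w z) f = 0) → X none ^ 2 - rename some F ∣ f) :
    LJ σ F (σ W) (fun a => σ (Y a)) = {f | X none ^ 2 - rename some F ∣ f} := by
  rw [LJ_good hF hW hWY fun U hU f hf => van_of_dvd (hI U hU f hf)]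
  ext f
  constructor
  · intro hf
    exact hI Set.univ Filter.univ_mem f fun z w hzw _ => hf z w hzw
  · intro hf z w hzw
    exact van_of_dvd hf z w hzw

end cone

end Pool.Agent.Y718.LZ
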