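import Pool.Agent.Y718.LZ.Main
import Pool.Agent.Y718.FQ.Smo
import Pool.Agent.Y165.CL.Ufd
import Pool.Agent.Y447.CL.Small
import Pool.Agent.TH729.CV.Iso
import Pool.Agent.TH729.BQ.Cyl

/-!
# Local ideals of smooth quartic double covers
-/

set_option autoImplicit false
set_option linter.unusedVariables false
set_option linter.unusedSectionVars false

open MvPolynomial Pool.Agent.Y718 Pool.Agent.Y718.SF Pool.Agent.Y718.CL Pool.Agent.Y720.MZ
open WeierstrassCurve Filter Topology Pool.Agent.Y718.FQ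

namespace Pool.Agent.Y718.LZ

section fa

open Pool.Agent.TH729.CV

variable {L : Type*} [NontriviallyNormedField L] [CompleteSpace L] [CharZero L]
  {k : Type*} [Field k] {τ : Type*} [Finite τ]

lemma FA_union {σ : k →+* L} {D D' : Set (τ → k)} (h : FA σ D) (h' : FA σ D') :
    FA σ (D ∪ D') := by
  have h1 : ∀ x, IA σ (D ∪ D') x = IA σ D x ⊓ IA σ D' x := by
    intro x
    ext f
    rw [Ideal.mem_inf, mem_IA, mem_IA, mem_IA, ← Filter.eventually_and]
    constructor
    · intro h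
      filter_upwards [h] with z hz
      exact ⟨fun y hy => hz y (Or.inl hy), fun y hy => hz y (Or.inr hy)⟩
    · intro h
      filter_upwards [h] with z hz y hy
      rcases hy with hy | hy
      · exact hz.1 y hy
      · exact hz.2 y hy
  have h2 : Set.Finite ((Set.range fun x : τ → L => IA σ D x) ×ˢ
      (Set.range fun x : τ → L => IA σ D' x)) := Set.Finite.prod h h'
  refine (h2.image fun I => I.1 ⊓ I.2).subset ?_
  rintro _ ⟨x, rfl⟩
  exact ⟨(IA σ D x, IA σ D' x), ⟨⟨x, rfl⟩, ⟨x, rfl⟩⟩, (h1 x).symm⟩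

lemma FA_empty (σ : k →+* L) : FA σ (∅ : Set (τ → k)) := by
  refine (Set.finite_singleton (⊤ : Ideal (MvPolynomial τ k))).subset ?_
  rintro _ ⟨x, rfl⟩
  rw [Set.mem_singleton_iff, Ideal.eq_top_iff_one, mem_IA]
  exact Filter.Eventually.of_forall fun z y hy => absurd hy (Set.notMem_empty y)

lemma FA_point (σ : k →+* L) (y₀ : τ → k) : FA σ ({y₀} : Set (τ → k)) := by
  classical
  have := Fintype.ofFinite τ
  refine (((Set.finite_singleton (IA σ ({y₀} : Set (τ → k)) fun i => σ (y₀ i))).union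
    (Set.finite_singleton (⊤ : Ideal (MvPolynomial τ k)))) : Set.Finite _).subset ?_
  rintro _ ⟨x, rfl⟩
  by_cases hx : (fun i => σ (y₀ i)) = x
  · left
    rw [Set.mem_singleton_iff, hx]
  · right
    rw [Set.mem_singleton_iff, Ideal.eq_top_iff_one, mem_IA]
    have h1 : ∀ᶠ z in 𝓝 x, z ≠ fun i => σ (y₀ i) := (isOpen_ne.mem_nhds (Ne.symm hx))
    filter_upwards [h1] with z hz y hy hyz
    rw [Set.mem_singleton_iff.1 hy] at hyz
    exact absurd hyz.symm hz

lemma FA_finite (σ : k →+* L) {D : Set (τ → k)} (hD : D.Finite) : FA σ D := by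
  induction D, hD using Set.Finite.induction_on with
  | empty => exact FA_empty σ
  | insert ha hs ih =>
    rw [Set.insert_eq]
    exact FA_union (FA_point σ _) ih

end fa

section io

variable {n : ℕ}

/-- a direction of infinite order at a point which is not exceptional -/
theorem exists_io_aff {p : ℕ} [Fact p.Prime] {f : MvPolynomial (Fin n) ℚ_[p]}
    {z : Fin n → ℚ_[p]} {y : ℚ_[p]} (hP : y ^ 2 = eval z f) (hy : y ≠ 0) (hG : Good f z) :
    ∃ e, IOt (th f e z y) := by
  obtain ⟨h1, h2, V, hV⟩ := hG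
  refine exists_io Pool.Agent.Y165.CL.ufd Pool.Agent.Y447.CL.bai hP hy (gB (g0 f z))
    (SF.gT (g0 f z)) (Bp_eval f z) (Tp_eval f z) h1 h2 ⟨V, ?_⟩
  rw [Tq_Db]
  exact hV

variable {K : Type} [Field K] [CharZero K]

lemma dh_map {F : Type} [Field F] (ρ : K →+* F) (G : MvPolynomial (Fin (n + 1)) K)
    (q : Fin (n + 1)) : MvPolynomial.map ρ (dh G q) = dh (MvPolynomial.map ρ G) q := by
  unfold dh
  induction G using MvPolynomial.induction_on with
  | C c => simp
  | add p q hp hq => simp only [map_add, hp, hq]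
  | mul_X p i hp =>
    simp only [map_mul, hp, MvPolynomial.aeval_X, MvPolynomial.map_X]
    congr 1
    rcases Fin.eq_self_or_eq_succAbove q i with h | ⟨j, rfl⟩
    · rw [h, Fin.insertNth_apply_same, Fin.insertNth_apply_same, map_one]
    · rw [Fin.insertNth_apply_succAbove, Fin.insertNth_apply_succAbove, MvPolynomial.map_X]

/-- goodness outside a finite set, at the place -/
theorem good_fin (hBD : S_BD) {F : Type} [Field F] [CharZero F] (φ : F →+* ℂ) (hn : 2 ≤ n)
    {G : MvPolynomial (Fin (n + 1)) F} (hG : G.IsHomogeneous 4)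
    (hs : Smooth (MvPolynomial.map φ G)) : ∃ E : Set (Fin n → F), E.Finite ∧
      ∀ z, z ∉ E → eval z (dh G 0) ≠ 0 → Good (dh G 0) z := by
  have h0 : S_EX0 := Pool.Agent.Y944.CL.ex0 Pool.Agent.Y151.CL.loc'
  have h1 : S_EX1 := Pool.Agent.Y944.CL.ex1 Pool.Agent.Y151.CL.loc'
  refine ⟨_, bad_fin h0 h1 φ hn hG hs 0, ?_⟩
  intro z hz hfz
  rw [dh_eval] at hfz
  have hb : ¬ Bad G (ic 0 1 z) := fun h => hz ⟨hfz, h⟩
  have h2 := mt (hBD F n G hG 0 z) hb
  rw [not_or] at h2
  refine ⟨h2.1, h2.2, ?_⟩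
  obtain ⟨e, he⟩ := exists_Tq Pool.Agent.Y718.CL.Sep.sep φ (by omega) hG hs hfz
  rw [Tq_Db, ic_split 0 z e, Db_shift hG] at he
  exact ⟨_, by rw [dh_lg]; exact he⟩

end io

section main

variable {K : Type} [Field K] [CharZero K] {n : ℕ} {L : Type*} [NontriviallyNormedField L]
  [CompleteSpace L] [ProperSpace L] [CharZero L]

/-- **Local Zariski density on smooth quartic double covers.** -/
theorem lz_smooth (hBD : S_BD) {p : ℕ} [Fact p.Prime] (ρ : K →+* ℚ_[p]) (hn : 2 ≤ n)
    {F : MvPolynomial (Fin (n + 1)) K} (hF : F.IsHomogeneous 4)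
    (hsm : ∀ y : Fin (n + 1) → AlgebraicClosure K, (∀ i, aeval y (pderiv i F) = 0) → y = 0) :
    ∃ E : Set (Fin n → K), E.Finite ∧ ∀ (L : Type*) [NontriviallyNormedField L]
      [ProperSpace L] (σ : K →+* L), ∀ x0 ∈ FQ.X0 (dh F 0), (fun j => x0 (Sum.inl j)) ∉ E →
      ∀ U ∈ 𝓝 (fun i => σ (x0 i)), ∀ h : MvPolynomial (Fin n ⊕ Unit) K,
        (∀ x ∈ XK (dh F 0), (fun i => σ (x i)) ∈ U → eval x h = 0) →
        ∀ x ∈ XK (dh F 0), eval x h = 0 := by
  obtain ⟨φ⟩ := Pool.Agent.Y447.CL.emb p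
  have hs : Smooth (MvPolynomial.map φ (MvPolynomial.map ρ F)) := by
    rw [MvPolynomial.map_map]
    exact Pool.Agent.Y362.CL.smt K (n + 1) F hsm _
  obtain ⟨E, hE, hEG⟩ := good_fin hBD φ hn (hF.map ρ) hs
  have hinj : Function.Injective (fun (z : Fin n → K) (j : Fin n) => ρ (z j)) := by
    intro z z' h
    funext j
    exact ρ.injective (congrFun h j)
  refine ⟨_, hE.preimage hinj.injOn, fun L _ _ σ x0 hx0 hx0E U hU h hh => ?_⟩
  refine lz ρ σ (dh_degree hF 0) hx0 ?_ hU hh
  have h1 : ρ (x0 (Sum.inr ())) ^ 2 = eval (fun j => ρ (x0 (Sum.inl j)))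
      (MvPolynomial.map ρ (dh F 0)) := by
    rw [← map_pow, hx0.1, eval_map]
    exact (eval₂_comp_left ρ (RingHom.id K) _ _).trans rfl
  have h2 : ρ (x0 (Sum.inr ())) ≠ 0 := (map_ne_zero ρ).2 hx0.2
  refine exists_io_aff h1 h2 ?_
  rw [dh_map] at h1 ⊢
  refine hEG _ hx0E ?_
  rw [← h1]
  exact pow_ne_zero 2 h2

open Pool.Agent.TH729.CV in
/-- **The local ideals of a smooth quartic double cover without the branch divisor.** -/
theorem FA_X0 (hBD : S_BD) {p : ℕ} [Fact p.Prime] (ρ : K →+* ℚ_[p]) (hn : 2 ≤ n)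
    {F : MvPolynomial (Fin (n + 1)) K} (hF : F.IsHomogeneous 4)
    (hsm : ∀ y : Fin (n + 1) → AlgebraicClosure K, (∀ i, aeval y (pderiv i F) = 0) → y = 0)
    (σ : K →+* L) : FA σ (FQ.X0 (dh F 0)) := by
  classical
  obtain ⟨E, hE, hlz⟩ := lz_smooth hBD ρ hn hF hsm
  have h1 : FQ.X0 (dh F 0) = {x | x ∈ FQ.X0 (dh F 0) ∧ (fun j => x (Sum.inl j)) ∉ E} ∪
      {x | x ∈ FQ.X0 (dh F 0) ∧ (fun j => x (Sum.inl j)) ∈ E} := by
    ext x
    by_cases h : (fun j => x (Sum.inl j)) ∈ E <;> simp [h]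
  rw [h1]
  refine FA_union ?_ (FA_finite σ (fin_above _ hE))
  set D : Set (Fin n ⊕ Unit → K) := {x | x ∈ FQ.X0 (dh F 0) ∧ (fun j => x (Sum.inl j)) ∉ E} with hD
  -- the ideal of the double cover
  let I : Ideal (MvPolynomial (Fin n ⊕ Unit) K) :=
    { carrier := {f | ∀ x ∈ XK (dh F 0), eval x f = 0}
      zero_mem' := fun x _ => map_zero _
      add_mem' := fun {f g} hf hg x hx => by rw [map_add, hf x hx, hg x hx, add_zero]
      smul_mem' := fun c f hf x hx => by rw [smul_eq_mul, map_mul, hf x hx, mul_zero] }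
  refine ((Set.finite_singleton I).union (Set.finite_singleton
    (⊤ : Ideal (MvPolynomial (Fin n ⊕ Unit) K)))).subset ?_
  rintro _ ⟨x, rfl⟩
  by_cases hx : ∀ᶠ z in 𝓝 x, ∀ y ∈ D, (fun i => σ (y i)) ≠ z
  · right
    rw [Set.mem_singleton_iff, Ideal.eq_top_iff_one, mem_IA]
    filter_upwards [hx] with z hz y hy hyz
    exact absurd hyz (hz y hy)
  · left
    rw [Set.mem_singleton_iff]
    apply le_antisymm
    · intro f hf
      rw [mem_IA] at hf
      obtain ⟨V, hV, hVo, hxV⟩ := mem_nhds_iff.1 hf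
      have h2 : ∃ z ∈ V, ∃ y ∈ D, (fun i => σ (y i)) = z := by
        by_contra hcon
        push Not at hcon
        exact hx (Filter.mem_of_superset (hVo.mem_nhds hxV) fun z hz y hy => hcon z hz y hy)
      obtain ⟨z, hzV, y, hy, rfl⟩ := h2
      -- the part of the neighbourhood off the branch divisor and the exceptional points
      obtain ⟨m, hm1, hm2⟩ := sep_poly hE hy.2
      have hw : y (Sum.inr ()) ≠ 0 := hy.1.2
      set g : MvPolynomial (Fin n ⊕ Unit) K := X (Sum.inr ()) * m with hg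
      have hgy : eval y g ≠ 0 := by
        rw [hg, map_mul, eval_X]
        exact mul_ne_zero hw hm1
      have h3 := hlz L σ y hy.1 hy.2 V (hVo.mem_nhds hzV) (f * g) (by
        intro x' hx' hx'V
        by_cases h4 : eval x' g = 0
        · rw [map_mul, h4, mul_zero]
        · rw [hg, map_mul, eval_X, ← ne_eq, mul_ne_zero_iff] at h4
          have h5 : x' ∈ D := ⟨⟨hx', h4.1⟩, fun h => h4.2 (hm2 x' h)⟩
          rw [map_mul, hV hx'V x' h5 rfl, zero_mul])
      -- the product with `g` vanishes; `f` vanishes where `g` does not, near each point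
      intro x' hx'
      have h6 : ∀ᶠ z in 𝓝 (fun i => σ (y i)), ∀ x' : Fin n ⊕ Unit → K, (fun i => σ (x' i)) = z →
          eval x' g ≠ 0 := by
        have hc : Continuous fun z : Fin n ⊕ Unit → L => eval z (MvPolynomial.map σ g) :=
          MvPolynomial.continuous_eval _
        have h7 : eval (fun i => σ (y i)) (MvPolynomial.map σ g) ≠ 0 := by
          rw [eval_map]
          have h8 : eval₂ σ (fun i => σ (y i)) g = σ (eval y g) :=
            ((eval₂_comp_left σ (RingHom.id K) y g).trans rfl).symm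
          rw [h8]
          exact (map_ne_zero σ).2 hgy
        filter_upwards [hc.continuousAt.eventually_ne h7] with z hz x'' hx'' h9
        apply hz
        rw [← hx'', eval_map]
        have h8 : eval₂ σ (fun i => σ (x'' i)) g = σ (eval x'' g) :=
          ((eval₂_comp_left σ (RingHom.id K) x'' g).trans rfl).symm
        rw [h8, h9, map_zero]
      exact hlz L σ y hy.1 hy.2 _ h6 f (by
        intro x'' hx'' hx''U
        have h10 := h3 x'' hx''
        rw [map_mul, mul_eq_zero] at h10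
        exact h10.resolve_right (hx''U x'' rfl)) x' hx'
    · intro f hf
      rw [mem_IA]
      exact Filter.Eventually.of_forall fun z y hy _ => hf y hy.1.1

end main

end Pool.Agent.Y718.LZ
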