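import Pool.Agent.Y718.FQ.Main
import Pool.Agent.Y720.MZ.Quar

/-!
# Local Zariski density of the rational points of double covers, at all places
-/

set_option autoImplicit false
set_option linter.unusedVariables false
set_option linter.unusedSectionVars false

open MvPolynomial Pool.Agent.Y718 Pool.Agent.Y718.SF Pool.Agent.Y718.CL Pool.Agent.Y720.MZ
open WeierstrassCurve Filter Topology Pool.Agent.Y718.FQ

namespace Pool.Agent.Y718.LZ

section desc

variable {K : Type*} [Field K] [CharZero K] {L : Type*} [Field L] [CharZero L]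

lemma pt_desc0 [DecidableEq K] [DecidableEq L] [Algebra K L] {W' : WeierstrassCurve K} {x y : K}
    {W₁ : WeierstrassCurve K} (hW₁ : W₁ = W'.baseChange K) (h : W₁.toAffine.Nonsingular x y)
    {W₂ : WeierstrassCurve L} (hW₂ : W₂ = W'.baseChange L)
    (h₂ : W₂.toAffine.Nonsingular (algebraMap K L x) (algebraMap K L y)) (n : ℕ)
    (h0 : n • (.some _ _ h : W₁.toAffine.Point) = 0) :
    n • (.some _ _ h₂ : W₂.toAffine.Point) = 0 := by
  subst hW₁ hW₂
  have h1 := congrArg (Affine.Point.map (W' := W') (F := K) (K := L) (Algebra.ofId K L)) h0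
  rw [map_nsmul, _root_.map_zero] at h1
  exact h1

lemma pt_desc [DecidableEq K] [DecidableEq L] (φ : K →+* L) {a b c x y : K}
    (h : (cv a b c).toAffine.Nonsingular x y) (W : WeierstrassCurve L)
    (hW : W = (cv a b c).map φ) (h₂ : W.toAffine.Nonsingular (φ x) (φ y)) (n : ℕ)
    (h0 : n • (.some _ _ h : Pt a b c) = 0) : n • (.some _ _ h₂ : W.toAffine.Point) = 0 := by
  letI := φ.toAlgebra
  refine pt_desc0 (L := L) (W' := cv a b c) (W₁ := cv a b c) ?_ h (W₂ := W) ?_ h₂ n h0
  · exact (WeierstrassCurve.map_id _).symm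
  · exact hW

/-- infinite order of the image of a point -/
lemma io_desc (φ : K →+* L) {θ : K × (Fin 4 → K)} (h : IOt (φ θ.1, fun j => φ (θ.2 j))) :
    IOt θ := by
  classical
  have eA : tA (φ θ.1, fun j => φ (θ.2 j)) = φ (tA θ) := rfl
  have eB : tB (φ θ.1, fun j => φ (θ.2 j)) = φ (tB θ) := by
    simp only [tB, rb, map_sub, map_mul, map_pow, map_ofNat]
  have eC : tC (φ θ.1, fun j => φ (θ.2 j)) = φ (tC θ) := by
    simp only [tC, Pool.Agent.Y720.MZ.rc, map_sub, map_add, map_mul, map_pow, map_ofNat]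
  have eX : tX (φ θ.1, fun j => φ (θ.2 j)) = φ (tX θ) := by
    simp only [tX, xs, map_sub, map_div₀, map_mul, map_pow, map_ofNat]
  have eY : tY (φ θ.1, fun j => φ (θ.2 j)) = φ (tY θ) := by
    simp only [tY, ys, xs, map_sub, map_add, map_div₀, map_mul, map_pow, map_ofNat]
  obtain ⟨h1, h2⟩ := h
  constructor
  · intro h0
    apply h1
    rw [eA, eB, eC]
    have e : dsc (φ (tA θ)) (φ (tB θ)) (φ (tC θ)) = φ (dsc (tA θ) (tB θ) (tC θ)) := by
      simp only [dsc, map_sub, map_add, map_mul, map_pow, map_ofNat]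
    rw [e, h0, map_zero]
  · rw [eA, eB, eC, eX, eY] at h2
    intro h3 n hn h0
    have h4 : (cv (φ (tA θ)) (φ (tB θ)) (φ (tC θ))).toAffine.Nonsingular (φ (tX θ)) (φ (tY θ)) := by
      rw [cv_ns] at h3 ⊢
      constructor
      · simpa only [map_add, map_mul, map_pow] using congrArg φ h3.1
      · rcases h3.2 with h5 | h5
        · left
          intro h6
          apply h5
          apply φ.injective
          simpa only [map_add, map_mul, map_pow, map_ofNat, map_zero] using h6
        · right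
          intro h6
          apply h5
          apply φ.injective
          simpa only [map_mul, map_ofNat, map_zero] using h6
    apply h2 h4 n hn
    refine @pt_desc K _ _ L _ _ (Classical.decEq K) (Classical.decEq L) φ _ _ _ _ _ h3
      (cv (φ (tA θ)) (φ (tB θ)) (φ (tC θ))) ?_ h4 n h0
    simp [cv, WeierstrassCurve.map]

end desc

section alg

variable {K : Type} [Field K] [CharZero K] {n : ℕ}

/-- normal form on the lines through a point -/
lemma exists_ab (f : MvPolynomial (Fin n) K) (z0 : Fin n → K)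
    (h : MvPolynomial (Fin n ⊕ Unit) K) :
    ∃ α β : Polynomial (MvPolynomial (Fin n) K), ∀ (e : Fin n → K) (s w : K),
      w ^ 2 = eval (z0 + s • e) f →
      eval (Sum.elim (z0 + s • e) fun _ => w) h =
        (α.map (eval e)).eval s + (β.map (eval e)).eval s * w := by
  induction h using MvPolynomial.induction_on with
  | C c =>
    refine ⟨Polynomial.C (C c), 0, fun e s w hw => ?_⟩
    simp
  | add p q hp hq =>
    obtain ⟨α, β, h1⟩ := hp
    obtain ⟨α', β', h2⟩ := hq
    refine ⟨α + α', β + β', fun e s w hw => ?_⟩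
    rw [map_add, h1 e s w hw, h2 e s w hw]
    simp only [Polynomial.map_add, Polynomial.eval_add]
    ring
  | mul_X p j hp =>
    obtain ⟨α, β, h1⟩ := hp
    rcases j with j | u
    · refine ⟨α * (Polynomial.C (C (z0 j)) + Polynomial.C (X j) * Polynomial.X),
        β * (Polynomial.C (C (z0 j)) + Polynomial.C (X j) * Polynomial.X), fun e s w hw => ?_⟩
      rw [map_mul, h1 e s w hw, eval_X]
      simp only [Sum.elim_inl, Pi.add_apply, Pi.smul_apply, smul_eq_mul, Polynomial.map_mul,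
        Polynomial.map_add, Polynomial.map_C, Polynomial.map_X, Polynomial.eval_mul,
        Polynomial.eval_add, Polynomial.eval_C, Polynomial.eval_X, eval_C, eval_X]
      ring
    · refine ⟨β * g0 f z0, α, fun e s w hw => ?_⟩
      rw [map_mul, h1 e s w hw, eval_X, Polynomial.map_mul, Polynomial.eval_mul, g0_eval, lg_eval,
        ← hw]
      simp only [Sum.elim_inr]
      ring

/-- the square of a quadratic polynomial has a singular resolvent -/
lemma Db_sq {r : Polynomial K} (hr : r.natDegree ≤ 2) : X.Db (r ^ 2) = 0 := by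
  have h5 : ∀ s, r.eval s = r.coeff 0 + r.coeff 1 * s + r.coeff 2 * s ^ 2 := by
    intro s
    rw [Polynomial.eval_eq_sum_range' (n := 3) (by omega)]
    simp [Finset.sum_range_succ]
  obtain ⟨k0, k1, k2, k3, k4⟩ := coeff_of_eval (P := r ^ 2) (c0 := r.coeff 0 ^ 2)
    (c1 := 2 * r.coeff 0 * r.coeff 1) (c2 := r.coeff 1 ^ 2 + 2 * r.coeff 0 * r.coeff 2)
    (c3 := 2 * r.coeff 1 * r.coeff 2) (c4 := r.coeff 2 ^ 2) (by
      intro s
      rw [Polynomial.eval_pow, h5]
      ring)
  rw [X.Db_dc, k0, k1, k2, k3, k4, dc, dsc]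
  ring

/-- the equation `α ^ 2 = β ^ 2 q` -/
lemma ab_zero {q α β : Polynomial K} (hq : q.natDegree ≤ 4) (hD : X.Db q ≠ 0)
    (h : α ^ 2 = β ^ 2 * q) : α = 0 ∧ β = 0 := by
  by_cases hβ : β = 0
  · subst hβ
    refine ⟨?_, rfl⟩
    rw [zero_pow two_ne_zero, zero_mul] at h
    exact pow_eq_zero_iff (two_ne_zero) |>.mp h
  exfalso
  have h1 : β ^ 2 ∣ α ^ 2 := ⟨q, h⟩
  rw [IsIntegrallyClosed.pow_dvd_pow_iff two_ne_zero] at h1
  obtain ⟨r, rfl⟩ := h1
  have h2 : r ^ 2 = q := mul_left_cancel₀ (pow_ne_zero 2 hβ) (by linear_combination h)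
  apply hD
  rw [← h2]
  apply Db_sq
  rw [← h2, Polynomial.natDegree_pow] at hq
  omega

end alg

section lz

variable {K : Type} [Field K] [CharZero K] {n : ℕ} {L : Type*} [NontriviallyNormedField L]
  [ProperSpace L]

/-- **Local Zariski density.** -/
theorem lz {p : ℕ} [Fact p.Prime] (ρ : K →+* ℚ_[p]) (σ : K →+* L) {f : MvPolynomial (Fin n) K}
    (hf : f.totalDegree ≤ 4) {x0 : Fin n ⊕ Unit → K} (hx0 : x0 ∈ FQ.X0 f)
    (hio : ∃ e : Fin n → ℚ_[p], IOt (th (MvPolynomial.map ρ f) e (fun j => ρ (x0 (Sum.inl j)))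
      (ρ (x0 (Sum.inr ()))))) {U : Set (Fin n ⊕ Unit → L)}
    (hU : U ∈ 𝓝 (fun i => σ (x0 i))) {h : MvPolynomial (Fin n ⊕ Unit) K}
    (hh : ∀ x ∈ XK f, (fun i => σ (x i)) ∈ U → eval x h = 0) : ∀ x ∈ XK f, eval x h = 0 := by
  classical
  obtain ⟨hx1, hx2⟩ := hx0
  set z0 : Fin n → K := fun j => x0 (Sum.inl j) with hz0
  set y : K := x0 (Sum.inr ()) with hy
  obtain ⟨e₀, he₀⟩ := hio
  obtain ⟨r, hr, hrb⟩ := dir_open ((map_ne_zero ρ).2 hx2) he₀
  obtain ⟨α, β, hab⟩ := exists_ab f z0 h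
  -- a box of directions
  set T : Fin n → Set K := fun a => {k | ‖ρ k - e₀ a‖ < r} with hT
  have hTinf : ∀ a, (T a).Infinite := by
    intro a
    have h1 : Set.Infinite {q : ℚ | ‖(q : ℚ_[p]) - e₀ a‖ < r} := by
      intro hfin
      -- the rational numbers are dense and the ball has no isolated points
      have h2 : Dense (((↑) : ℚ → ℚ_[p]) '' {q : ℚ | ‖(q : ℚ_[p]) - e₀ a‖ < r}ᶜ) := by
        have h3 : (Set.range ((↑) : ℚ → ℚ_[p])) \ (((↑) : ℚ → ℚ_[p]) ''
            {q : ℚ | ‖(q : ℚ_[p]) - e₀ a‖ < r}) ⊆ ((↑) : ℚ → ℚ_[p]) ''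
              {q : ℚ | ‖(q : ℚ_[p]) - e₀ a‖ < r}ᶜ := by
          rintro _ ⟨⟨q, rfl⟩, hq⟩
          exact ⟨q, fun h => hq ⟨q, h, rfl⟩, rfl⟩
        refine Dense.mono h3 (Dense.sdiff_finite ?_ (hfin.image _))
        intro x
        rw [Metric.mem_closure_iff]
        intro ε hε
        obtain ⟨q, hq⟩ := Padic.rat_dense p x hε
        exact ⟨q, ⟨q, rfl⟩, by rw [dist_eq_norm]; exact hq⟩
      obtain ⟨_, ⟨q, hq, rfl⟩, hx⟩ := h2.exists_mem_open Metric.isOpen_ball
        ⟨e₀ a, Metric.mem_ball_self hr⟩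
      apply hq
      have := hx
      rw [Metric.mem_ball, dist_eq_norm] at this
      exact this
    refine (h1.image (f := fun q : ℚ => (q : K)) (Rat.cast_injective.injOn)).mono ?_
    rintro _ ⟨q, hq, rfl⟩
    show ‖ρ (q : K) - e₀ a‖ < r
    rw [map_ratCast]
    exact hq
  -- the directions in the box
  have hdir : ∀ e ∈ Set.pi Set.univ T, α.map (eval e) = 0 ∧ β.map (eval e) = 0 := by
    intro e he
    have h1 : IOt (th (MvPolynomial.map ρ f) (fun a => ρ (e a)) (fun j => ρ (z0 j)) (ρ y)) :=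
      hrb _ fun a => he a (Set.mem_univ a)
    rw [th_map] at h1
    obtain ⟨h2, h3⟩ := io_desc ρ h1
    have hdeg : (lg f z0 e).natDegree ≤ 4 := (lg_natDegree _ _ _).trans hf
    have hDb : X.Db (lg f z0 e) ≠ 0 := by
      rw [← Tq_Db]
      have h4 : Tq f e z0 = dsc (tA (th f e z0 y)) (tB (th f e z0 y)) (tC (th f e z0 y)) := by
        rw [Tq, ← (show y ^ 2 = eval z0 f from hx1)]
        rfl
      rw [h4]
      exact h2
    apply ab_zero hdeg hDb
    -- infinitely many points
    have hpts : ∀ ε : ℝ, 0 < ε → ∃ t Y : K, t ≠ 0 ∧ ‖σ t‖ < ε ∧ ‖σ (Y - y)‖ < ε ∧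
        Y ^ 2 = y ^ 2 + cq f z0 e 0 * t + cq f z0 e 1 * t ^ 2 + cq f z0 e 2 * t ^ 3 +
          cq f z0 e 3 * t ^ 4 := fun ε hε =>
      @quartic_dense K _ _ L _ (Classical.decEq K) _ σ _ _ _ _ _ hx2 h2 h3 _ hε
    have hval : ∀ t : K, y ^ 2 + cq f z0 e 0 * t + cq f z0 e 1 * t ^ 2 + cq f z0 e 2 * t ^ 3 +
        cq f z0 e 3 * t ^ 4 = eval (z0 + t • e) f := by
      intro t
      rw [← lg_eval, Polynomial.eval_eq_sum_range' (n := 5) (by omega)]
      simp only [Finset.sum_range_succ, Finset.sum_range_zero]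
      have e0 : (lg f z0 e).coeff 0 = y ^ 2 := by
        rw [Polynomial.coeff_zero_eq_eval_zero, lg_eval, zero_smul, add_zero]
        exact (show y ^ 2 = eval z0 f from hx1).symm
      rw [e0]
      have e1 : ∀ j : Fin 4, cq f z0 e j = (lg f z0 e).coeff ((j : ℕ) + 1) := fun j => rfl
      rw [e1, e1, e1, e1]
      simp
    -- neighbourhoods
    obtain ⟨δ, hδ, hδU⟩ := Metric.mem_nhds_iff.1 hU
    have hnear : ∃ ε : ℝ, 0 < ε ∧ ∀ t Y : K, ‖σ t‖ < ε → ‖σ (Y - y)‖ < ε →
        (fun i => σ (Sum.elim (z0 + t • e) (fun _ : Unit => Y) i)) ∈ U := by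
      set M : ℝ := 1 + ∑ a, ‖σ (e a)‖ with hM
      have hM1 : 1 ≤ M := le_add_of_nonneg_right (Finset.sum_nonneg fun a _ => norm_nonneg _)
      refine ⟨δ / M, by positivity, fun t Y ht hY => hδU ?_⟩
      rw [Metric.mem_ball, dist_pi_lt_iff hδ]
      intro i
      rcases i with j | u
      · rw [dist_eq_norm]
        have e1 : σ (Sum.elim (z0 + t • e) (fun _ : Unit => Y) (Sum.inl j)) - σ (x0 (Sum.inl j)) =
            σ t * σ (e j) := by
          simp only [Sum.elim_inl, Pi.add_apply, Pi.smul_apply, smul_eq_mul, map_add, map_mul]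
          ring
        rw [e1, norm_mul]
        have h5 : ‖σ (e j)‖ ≤ M := by
          have := Finset.single_le_sum (f := fun a => ‖σ (e a)‖) (fun a _ => norm_nonneg _)
            (Finset.mem_univ j)
          linarith
        calc ‖σ t‖ * ‖σ (e j)‖ ≤ ‖σ t‖ * M := by gcongr
          _ < δ / M * M := by gcongr
          _ = δ := by field_simp
      · rw [dist_eq_norm]
        have e1 : σ (Sum.elim (z0 + t • e) (fun _ : Unit => Y) (Sum.inr u)) - σ (x0 (Sum.inr u)) =
            σ (Y - y) := by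
          rw [map_sub]
          rfl
        rw [e1]
        exact hY.trans_le (div_le_self hδ.le hM1)
    obtain ⟨ε₀, hε₀, hε₀U⟩ := hnear
    have hinf : Set.Infinite {t : K | (((α.map (eval e)) ^ 2 - (β.map (eval e)) ^ 2 *
        lg f z0 e : Polynomial K)).eval t = 0} := by
      intro hfin
      have h4 : ∃ ε₁ : ℝ, 0 < ε₁ ∧ ∀ t ∈ {t : K | (((α.map (eval e)) ^ 2 - (β.map (eval e)) ^ 2 *
          lg f z0 e : Polynomial K)).eval t = 0}, t ≠ 0 → ε₁ ≤ ‖σ t‖ := by
        refine Set.Finite.induction_on _ hfin ⟨1, one_pos, fun t ht => absurd ht (Set.notMem_empty t)⟩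
          ?_
        rintro a s - - ⟨ε₁, hε₁, h5⟩
        by_cases ha : a = 0
        · refine ⟨ε₁, hε₁, fun t ht ht0 => ?_⟩
          rcases ht with rfl | ht
          · exact absurd ha ht0
          · exact h5 t ht ht0
        · refine ⟨min ε₁ ‖σ a‖, lt_min hε₁ (norm_pos_iff.2 ((map_ne_zero σ).2 ha)),
            fun t ht ht0 => ?_⟩
          rcases ht with rfl | ht
          · exact min_le_right _ _
          · exact (min_le_left _ _).trans (h5 t ht ht0)
      obtain ⟨ε₁, hε₁, h5⟩ := h4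
      obtain ⟨t, Y, ht0, ht, hY, hYe⟩ := hpts (min ε₀ ε₁) (lt_min hε₀ hε₁)
      rw [hval] at hYe
      have h6 := hh (Sum.elim (z0 + t • e) (fun _ => Y)) hYe
        (hε₀U t Y (ht.trans_le (min_le_left _ _)) (hY.trans_le (min_le_left _ _)))
      rw [hab e t Y hYe] at h6
      have h7 : (((α.map (eval e)) ^ 2 - (β.map (eval e)) ^ 2 * lg f z0 e : Polynomial K)).eval t
          = 0 := by
        rw [Polynomial.eval_sub, Polynomial.eval_mul, Polynomial.eval_pow, Polynomial.eval_pow,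
          lg_eval, ← hYe]
        linear_combination ((α.map (eval e)).eval t - (β.map (eval e)).eval t * Y) * h6
      exact absurd (ht.trans_le (min_le_right _ _)) (not_lt.2 (h5 t h7 ht0))
    have h8 := Polynomial.eq_zero_of_infinite_isRoot _ hinf
    exact sub_eq_zero.1 h8
  have hα : α = 0 := by
    ext1 k
    rw [Polynomial.coeff_zero]
    refine MvPolynomial.funext_set T hTinf fun e he => ?_
    rw [← Polynomial.coeff_map, (hdir e he).1, Polynomial.coeff_zero, map_zero]
  have hβ : β = 0 := by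
    ext1 k
    rw [Polynomial.coeff_zero]
    refine MvPolynomial.funext_set T hTinf fun e he => ?_
    rw [← Polynomial.coeff_map, (hdir e he).2, Polynomial.coeff_zero, map_zero]
  intro x hx
  have h1 : z0 + (1 : K) • ((fun j => x (Sum.inl j)) - z0) = fun j => x (Sum.inl j) := by
    rw [one_smul, add_sub_cancel]
  have h2 := hab ((fun j => x (Sum.inl j)) - z0) 1 (x (Sum.inr ())) (by
    rw [h1]
    exact hx)
  rw [h1, hα, hβ] at h2
  have hxe : x = Sum.elim (fun j => x (Sum.inl j)) (fun _ => x (Sum.inr ())) := by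
    funext v
    rcases v with v | v <;> rfl
  rw [hxe, h2]
  simp

end lz

end Pool.Agent.Y718.LZ
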